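import Pool.Agent.Lib.helper11.NegPrimRoot

set_option autoImplicit false

namespace Pool.Agent.Results.MP_41caf5_nt.Q1False

open Pool.Agent.Lib.H11NegPrimRoot

theorem result :
    ¬ (∀ a : ℤ, a < 0 → ¬ IsPerfectPower a →
        {p : ℕ | p.Prime ∧ IsLargestNegPrimRoot a p}.Infinite) := by
  intro h
  have := h (-16) (by norm_num) not_perfectPower
  rw [set_empty] at this
  exact this Set.finite_empty

end Pool.Agent.Results.MP_41caf5_nt.Q1False
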