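import Pool.Agent.Lib.helper11.NegPrimRoot

set_option autoImplicit false

namespace Pool.Agent.Results.MP_41caf5_nt.Q2False

open Pool.Agent.Lib.H11NegPrimRoot

theorem result :
    ¬ (∀ (a : ℤ) (n : ℕ), a < 0 → ¬ IsPerfectPower a → 1 ≤ n → (a, n) ≠ (-2, 13) →
        ((n + 1 : ℕ) : ℕ∞) ≤ {p : ℕ | p.Prime ∧ IsLargestNegPrimRoot a p}.encard ∧
        ((Nat.nth (fun p => p.Prime ∧ IsLargestNegPrimRoot a p) n : ℕ) : ℝ) <
          ((Nat.nth (fun p => p.Prime ∧ IsLargestNegPrimRoot a p) (n - 1) : ℕ) : ℝ) ^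
            (1 + 1 / (n : ℝ))) := by
  intro h
  have := (h (-16) 1 (by norm_num) not_perfectPower le_rfl (by simp)).1
  rw [set_empty] at this
  simp at this

end Pool.Agent.Results.MP_41caf5_nt.Q2False
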